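import Pool.Agent.H98.Cyc10

set_option autoImplicit false
open scoped InnerProductSpace

namespace Pool.Agent.Results.MP_5e7226_co.DualCyclic

/-- orientation determinant of `d+1` points of `d`-space: rows `(1, p i)` -/
noncomputable def orient {d : ℕ} (p : Fin (d+1) → EuclideanSpace ℝ (Fin d)) : ℝ :=
  (Matrix.of fun i => (Fin.cons 1 (fun r => p i r) : Fin (d+1) → ℝ)).det

/-- alternating (cyclic) point sequence: all increasing `(d+1)`-subsequences have the same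
nonzero orientation -/
def Alternating {d n : ℕ} (v : Fin n → EuclideanSpace ℝ (Fin d)) : Prop :=
  ∀ z z' : Fin (d+1) → Fin n, StrictMono z → StrictMono z' →
    0 < orient (fun i => v (z i)) * orient (fun i => v (z' i))

/-- polar of the convex hull of the points `v i` with respect to the centre `c` -/
def polar {d n : ℕ} (v : Fin n → EuclideanSpace ℝ (Fin d)) (c : EuclideanSpace ℝ (Fin d)) :
    Set (EuclideanSpace ℝ (Fin d)) := {y | ∀ i, ⟪v i - c, y⟫_ℝ ≤ 1}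

/-- some `N` hyperplanes strictly separate every face of `K` from `o` -/
def Sep {d : ℕ} (K : Set (EuclideanSpace ℝ (Fin d))) (o : EuclideanSpace ℝ (Fin d)) (N : ℕ) :
    Prop :=
  ∃ w : Fin N → EuclideanSpace ℝ (Fin d), ∃ b : Fin N → ℝ,
    ∀ u x₀ : EuclideanSpace ℝ (Fin d), u ≠ 0 → x₀ ∈ K →
      (∀ y ∈ K, ⟪u, y⟫_ℝ ≤ ⟪u, x₀⟫_ℝ) →
        ∃ i, ⟪w i, o⟫_ℝ < b i ∧ ∀ x ∈ K, ⟪u, x⟫_ℝ = ⟪u, x₀⟫_ℝ → b i < ⟪w i, x⟫_ℝ

theorem result (d n : ℕ) (hd : 3 ≤ d) (hn : d + 1 ≤ n) (v : Fin n → EuclideanSpace ℝ (Fin d))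
    (hv : Alternating v ∨
      ∃ t : Fin n → ℝ, StrictMono t ∧ ∀ (x : Fin n) (i : Fin d), v x i = t x ^ ((i:ℕ)+1))
    (c o : EuclideanSpace ℝ (Fin d)) (ho : o ∈ interior (polar v c)) :
    Sep (polar v c) o (min (2 * d) (2 ^ d - 1)) := by
  have hv' : Alternating v := by
    rcases hv with hv | ⟨t, ht, hvt⟩
    · exact hv
    · have e : v = fun x => (WithLp.toLp 2 (fun i : Fin d => t x ^ ((i:ℕ)+1)) :
          EuclideanSpace ℝ (Fin d)) := by
        funext x; ext i; exact hvt x i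
      rw [e]
      exact Pool.Agent.H98.Cyc.alt_mom ht
  refine Pool.Agent.H98.Cyc.sep (by omega) hv' hn c o ho (le_min (le_refl _) ?_)
  obtain ⟨m, rfl⟩ : ∃ m, d = m + 3 := ⟨d - 3, by omega⟩
  have := Nat.lt_two_pow_self (n := m)
  rw [pow_add]
  omega

end Pool.Agent.Results.MP_5e7226_co.DualCyclic
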